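import Pool.Agent.Lib.MP_578f25_an.Fin4

/-!
# MP_578f25_an, Q1: Martin-kernel weighted gradient integrals on NTA domains

For every bounded NTA domain `Ω` in `ℝ^d`, `d ≥ 2`, and every base point `x₀ ∈ Ω` there is a
constant `C` such that every positive harmonic function `v` on `Ω` admits a boundary point `ζ`
with `∫_Ω |∇v(x)| K(x, ζ) |∇_x G(x, x₀)| dx ≤ C v(x₀)`.

All definitions are in `Pool/Agent/Lib/MP_578f25_an/Defs.lean`.
-/

set_option autoImplicit false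

namespace Pool.Agent.Results.MP_578f25_an.MartinGradient

open MeasureTheory Metric Set Filter Topology InnerProductSpace Pool.Agent.MP_578f25_an

theorem result {d : ℕ} (hd : 2 ≤ d) (Ω : Set (E d)) (M r₀ : ℝ) (hΩ : IsNTA Ω M r₀)
    (κ : ℝ) (G : E d → E d → ℝ) (hG : IsGreen Ω κ G) (x₀ : E d) (hx₀ : x₀ ∈ Ω) :
    ∃ C : ℝ, ∀ v : E d → ℝ, HarmonicOnNhd v Ω → (∀ x ∈ Ω, 0 < v x) →
      ∃ ζ ∈ frontier Ω, ∃ K : E d → ℝ,
        (∀ x ∈ Ω, Tendsto (fun y => G x y / G x₀ y) (𝓝[Ω] ζ) (𝓝 (K x))) ∧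
        ∫⁻ x in Ω, ENNReal.ofReal
            (‖fderiv ℝ v x‖ * K x * ‖fderiv ℝ (fun y => G y x₀) x‖) ≤
          ENNReal.ofReal (C * v x₀) :=
  martin_gradient hd hΩ hG hx₀

end Pool.Agent.Results.MP_578f25_an.MartinGradient
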